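import Mathlib

/-!
# The relations of Baumslag's group
-/

open Polynomial

namespace Pool.Agent.TH177.QL

section Abstract

variable {H : Type*} [Group H] {a s t : H}

/-- The element `s ^ i * a * s ^ (-i)`. -/
def av (a s : H) (i : ℕ) : H := s ^ i * a * (s ^ i)⁻¹

lemma av_zero : av a s 0 = a := by simp [av]

lemma av_one : av a s 1 = s * a * s⁻¹ := by simp [av]

lemma av_succ (i : ℕ) : s * av a s i * s⁻¹ = av a s (i + 1) := by
  simp only [av, pow_succ', mul_inv_rev, mul_assoc]

lemma pow_av (k i : ℕ) : s ^ k * av a s i * (s ^ k)⁻¹ = av a s (k + i) := by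
  simp only [av, pow_add, mul_inv_rev, mul_assoc]

lemma t_av (hst : Commute s t) (h2 : t * a * t⁻¹ = a * (s * a * s⁻¹)) (i : ℕ) :
    t * av a s i * t⁻¹ = av a s i * av a s (i + 1) := by
  have h : t * s ^ i = s ^ i * t := (hst.pow_left i).eq.symm
  calc t * (s ^ i * a * (s ^ i)⁻¹) * t⁻¹ = (t * s ^ i) * a * (t * s ^ i)⁻¹ := by
        simp only [mul_inv_rev, mul_assoc]
    _ = (s ^ i * t) * a * (s ^ i * t)⁻¹ := by rw [h]
    _ = s ^ i * (t * a * t⁻¹) * (s ^ i)⁻¹ := by simp only [mul_inv_rev, mul_assoc]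
    _ = s ^ i * (a * (s * a * s⁻¹)) * (s ^ i)⁻¹ := by rw [h2]
    _ = _ := by simp only [av, pow_succ, mul_inv_rev, mul_assoc, inv_mul_cancel_left]

lemma commute_conj {x y : H} (c : H) (h : Commute x y) :
    Commute (c * x * c⁻¹) (c * y * c⁻¹) := h.map (MulAut.conj c)

lemma commute_shift {i j : ℕ} (h : Commute (av a s i) (av a s j)) (k : ℕ) :
    Commute (av a s (k + i)) (av a s (k + j)) := by
  rw [← pow_av, ← pow_av]
  exact commute_conj _ h

lemma commute_zero (hst : Commute s t) (h1 : Commute a (s * a * s⁻¹))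
    (h2 : t * a * t⁻¹ = a * (s * a * s⁻¹)) (k : ℕ) :
    ∀ j ≤ k, Commute (av a s 0) (av a s j) := by
  induction k with
  | zero =>
    intro j hj
    obtain rfl : j = 0 := by omega
    exact Commute.refl _
  | succ k ih =>
    intro j hj
    rcases Nat.lt_or_ge j (k + 1) with hlt | hge
    · exact ih j (by omega)
    obtain rfl : j = k + 1 := by omega
    rcases Nat.eq_zero_or_pos k with rfl | hk
    · rw [av_zero, zero_add, av_one]
      exact h1
    have e1 : Commute (av a s 1) (av a s k) := by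
      have := commute_shift (ih (k - 1) (by omega)) 1
      rwa [show 1 + (k - 1) = k by omega] at this
    have e2 : Commute (av a s 1) (av a s (k + 1)) := by
      have := commute_shift (ih k le_rfl) 1
      rwa [show 1 + k = k + 1 by omega] at this
    have e3 : Commute (av a s 0 * av a s 1) (av a s k * av a s (k + 1)) := by
      have := commute_conj t (ih k le_rfl)
      rwa [t_av hst h2, t_av hst h2] at this
    have e4 : Commute (av a s 0) (av a s k * av a s (k + 1)) := by
      have := e3.mul_left (e1.mul_right e2).inv_left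
      rwa [mul_inv_cancel_right] at this
    have := (ih k le_rfl).inv_right.mul_right e4
    rwa [inv_mul_cancel_left] at this

lemma commute_av (hst : Commute s t) (h1 : Commute a (s * a * s⁻¹))
    (h2 : t * a * t⁻¹ = a * (s * a * s⁻¹)) (i j : ℕ) : Commute (av a s i) (av a s j) := by
  rcases le_total i j with h | h
  · have := commute_shift (commute_zero hst h1 h2 (j - i) (j - i) le_rfl) i
    rwa [show i + (j - i) = j by omega, add_zero] at this
  · have := commute_shift (commute_zero hst h1 h2 (i - j) (i - j) le_rfl) j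
    rw [show j + (i - j) = i by omega, add_zero] at this
    exact this.symm

/-- The homomorphism from the additive group of polynomials which maps `X ^ i` to
`s ^ i * a * s ^ (-i)`. -/
theorem exists_theta (hst : Commute s t) (h1 : Commute a (s * a * s⁻¹))
    (h2 : t * a * t⁻¹ = a * (s * a * s⁻¹)) :
    ∃ θ : ℤ[X] → H, (∀ p q, θ (p + q) = θ p * θ q) ∧ θ 0 = 1 ∧
      (∀ (i : ℕ) (c : ℤ), θ (monomial i c) = av a s i ^ c) ∧ θ 1 = a ∧ (∀ p, s * θ p * s⁻¹ = θ (X * p)) ∧ ∀ p, t * θ p * t⁻¹ = θ ((1 + X) * p) := by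
  have hcomm : ∀ x ∈ Set.range (av a s), ∀ y ∈ Set.range (av a s), x * y = y * x := by
    rintro _ ⟨i, rfl⟩ _ ⟨j, rfl⟩
    exact (commute_av hst h1 h2 i j).eq
  let inst : CommGroup (Subgroup.closure (Set.range (av a s))) :=
    Subgroup.closureCommGroupOfComm hcomm
  obtain ⟨L, hL⟩ : ∃ L : ℤ[X] →ₗ[ℤ] Additive (Subgroup.closure (Set.range (av a s))),
      ∀ i, L (monomial i 1) = Additive.ofMul ⟨av a s i, Subgroup.subset_closure ⟨i, rfl⟩⟩ := by
    refine ⟨(Polynomial.basisMonomials ℤ).constr ℤ (fun i =>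
      Additive.ofMul ⟨av a s i, Subgroup.subset_closure ⟨i, rfl⟩⟩), fun i => ?_⟩
    have := (Polynomial.basisMonomials ℤ).constr_basis ℤ (fun i =>
      (Additive.ofMul ⟨av a s i, Subgroup.subset_closure ⟨i, rfl⟩⟩ :
        Additive (Subgroup.closure (Set.range (av a s))))) i
    rwa [Polynomial.coe_basisMonomials] at this
  obtain ⟨θ, hθ⟩ : ∃ θ : ℤ[X] → H, θ = fun p =>
      ((Additive.toMul (L p) : Subgroup.closure (Set.range (av a s))) : H) := ⟨_, rfl⟩
  have hadd : ∀ p q, θ (p + q) = θ p * θ q := by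
    intro p q
    simp only [hθ, map_add, toMul_add]
    rfl
  have hzero : θ 0 = 1 := by
    simp only [hθ, map_zero, toMul_zero]
    rfl
  have hmono : ∀ (i : ℕ) (c : ℤ), θ (monomial i c) = av a s i ^ c := by
    intro i c
    have h : (monomial i c : ℤ[X]) = c • monomial i 1 := by
      rw [smul_monomial]
      simp
    simp only [hθ]
    rw [h, map_smul, hL, toMul_zsmul]
    rfl
  refine ⟨θ, hadd, hzero, hmono, ?_, ?_, ?_⟩
  · have := hmono 0 1
    rwa [zpow_one, av_zero, monomial_zero_left, C_1] at this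
  · intro p
    induction p using Polynomial.induction_on' with
    | add p q hp hq =>
      rw [mul_add, hadd, hadd, ← hp, ← hq]
      simp only [mul_assoc, inv_mul_cancel_left]
    | monomial n c =>
      rw [X_mul_monomial, hmono, hmono, ← av_succ, conj_zpow]
  · intro p
    induction p using Polynomial.induction_on' with
    | add p q hp hq =>
      rw [mul_add, hadd, hadd, ← hp, ← hq]
      simp only [mul_assoc, inv_mul_cancel_left]
    | monomial n c =>
      rw [add_mul, one_mul, X_mul_monomial, hadd, hmono, hmono, ← conj_zpow, t_av hst h2,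
        (commute_av hst h1 h2 n (n + 1)).mul_zpow]

section NormalForm

variable {θ : ℤ[X] → H}

lemma step_aux {v c c' v' : H} {p p' : ℤ[X]} (h : v * c⁻¹ = c'⁻¹ * v')
    (hv : v' * θ p * v'⁻¹ = θ p') (w : H) :
    v * (c⁻¹ * θ p * c * w) = c'⁻¹ * θ p' * c' * (v * w) := by
  have h' : v'⁻¹ * c' = c * v⁻¹ := by
    have := congrArg (fun x => x⁻¹) h
    simpa only [mul_inv_rev, inv_inv] using this.symm
  calc v * (c⁻¹ * θ p * c * w) = (v * c⁻¹) * θ p * (c * v⁻¹) * (v * w) := by
        simp only [mul_assoc, inv_mul_cancel_left]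
    _ = (c'⁻¹ * v') * θ p * (v'⁻¹ * c') * (v * w) := by rw [h, h']
    _ = c'⁻¹ * (v' * θ p * v'⁻¹) * c' * (v * w) := by simp only [mul_assoc]
    _ = _ := by rw [hv]

lemma conj_pow_theta (hs : ∀ p, s * θ p * s⁻¹ = θ (X * p))
    (ht : ∀ p, t * θ p * t⁻¹ = θ ((1 + X) * p)) (n : ℕ) (p : ℤ[X]) :
    (s * t) ^ n * θ p * ((s * t) ^ n)⁻¹ = θ ((X * (1 + X)) ^ n * p) := by
  induction n with
  | zero => simp
  | succ n ih =>
    calc (s * t) ^ (n + 1) * θ p * ((s * t) ^ (n + 1))⁻¹
        = s * (t * ((s * t) ^ n * θ p * ((s * t) ^ n)⁻¹) * t⁻¹) * s⁻¹ := by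
          simp only [pow_succ', mul_inv_rev, mul_assoc]
      _ = _ := by
          rw [ih, ht, hs]
          congr 1
          ring

theorem normal_form (hst : Commute s t) (hadd : ∀ p q, θ (p + q) = θ p * θ q) (h0 : θ 0 = 1)
    (h1 : θ 1 = a) (hs : ∀ p, s * θ p * s⁻¹ = θ (X * p))
    (ht : ∀ p, t * θ p * t⁻¹ = θ ((1 + X) * p)) {g : H} (hg : g ∈ Subgroup.closure {a, s, t}) :
    ∃ (n : ℕ) (p : ℤ[X]) (i j : ℤ),
      g = ((s * t) ^ n)⁻¹ * θ p * (s * t) ^ n * (s ^ i * t ^ j) := by
  have hsz : ∀ n : ℕ, Commute s ((s * t) ^ n) := fun n =>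
    ((Commute.refl s).mul_right hst).pow_right n
  have htz : ∀ n : ℕ, Commute t ((s * t) ^ n) := fun n =>
    (hst.symm.mul_right (Commute.refl t)).pow_right n
  have hconj := conj_pow_theta hs ht
  have hz1 : ∀ n : ℕ, (s * t) ^ (n + 1) = t * ((s * t) ^ n * s) := by
    intro n
    rw [pow_succ, ← mul_assoc t, (htz n).eq, mul_assoc, hst.eq]
  have hz2 : ∀ n : ℕ, (s * t) ^ (n + 1) = s * ((s * t) ^ n * t) := by
    intro n
    rw [pow_succ, ← mul_assoc s, (hsz n).eq, mul_assoc]
  induction hg using Subgroup.closure_induction_left with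
  | one => exact ⟨0, 0, 0, 0, by simp [h0]⟩
  | mul_left x hx y hy ih =>
    obtain ⟨n, p, i, j, rfl⟩ := ih
    rcases hx with hx | hx | hx
    · refine ⟨n, (X * (1 + X)) ^ n * 1 + p, i, j, ?_⟩
      rw [hx, hadd, ← hconj, h1]
      simp only [mul_assoc, inv_mul_cancel_left]
    · refine ⟨n, X * p, i + 1, j, ?_⟩
      rw [hx, step_aux (hsz n).inv_right.eq (hs p), add_comm i 1, zpow_add, zpow_one,
        mul_assoc s]
    · refine ⟨n, (1 + X) * p, i, j + 1, ?_⟩
      rw [hx, step_aux (htz n).inv_right.eq (ht p), add_comm j 1, zpow_add, zpow_one,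
        (hst.zpow_left i).symm.left_comm]
  | inv_mul_cancel x hx y hy ih =>
    obtain ⟨n, p, i, j, rfl⟩ := ih
    rcases hx with hx | hx | hx
    · refine ⟨n, -((X * (1 + X)) ^ n * 1) + p, i, j, ?_⟩
      have hneg : ∀ q, θ (-q) = (θ q)⁻¹ := by
        intro q
        rw [eq_inv_iff_mul_eq_one, ← hadd, neg_add_cancel, h0]
      rw [hx, hadd, hneg, ← hconj, h1]
      simp only [mul_assoc, mul_inv_rev, inv_inv, inv_mul_cancel_left]
    · refine ⟨n + 1, (1 + X) * p, i - 1, j, ?_⟩
      have e : s⁻¹ * ((s * t) ^ n)⁻¹ = ((s * t) ^ (n + 1))⁻¹ * t := by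
        rw [hz1, mul_inv_rev, inv_mul_cancel_right, mul_inv_rev]
      rw [hx, step_aux e (ht p), sub_eq_add_neg, add_comm i (-1), zpow_add, zpow_neg_one,
        mul_assoc s⁻¹]
    · refine ⟨n + 1, X * p, i, j - 1, ?_⟩
      have e : t⁻¹ * ((s * t) ^ n)⁻¹ = ((s * t) ^ (n + 1))⁻¹ * s := by
        rw [hz2, mul_inv_rev, inv_mul_cancel_right, mul_inv_rev]
      rw [hx, step_aux e (hs p), sub_eq_add_neg, add_comm j (-1), zpow_add, zpow_neg_one,
        (hst.zpow_left i).symm.inv_left.left_comm]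

end NormalForm

end Abstract

end Pool.Agent.TH177.QL
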