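import Mathlib

/-!
# The Quillen-Lichtenbaum dimension of smooth categories: definitions
-/

open CategoryTheory

universe u v

namespace Pool.Agent.TH177.QL

/-- The algebraic and the topological K-theory, with finite coefficients, of the small idempotent
complete `ℂ`-linear stable infinity categories: the class of these categories, the smooth ones, the
groups `K_n(A, ℤ/m)` and `K^top_n(A, ℤ/m)`, and the comparison maps. -/
structure KTheory where
  /-- the small idempotent complete `ℂ`-linear stable infinity categories -/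
  Cat : Type u
  /-- the smooth ones -/
  Smooth : Cat → Prop
  /-- `K_n(A, ℤ/m)` -/
  K : ℕ → ℤ → Cat → AddCommGrpCat.{v}
  /-- `K^top_n(A, ℤ/m)` -/
  Ktop : ℕ → ℤ → Cat → AddCommGrpCat.{v}
  /-- the comparison map -/
  comp : ∀ (m : ℕ) (n : ℤ) (A : Cat), K m n A ⟶ Ktop m n A

namespace KTheory

variable (T : KTheory.{u, v})

/-- The condition on `d` in the definition of the Quillen-Lichtenbaum dimension. -/
def IsBound (A : T.Cat) (d : ℕ) : Prop :=
  ∀ m : ℕ, 1 ≤ m → (∀ n : ℤ, (d : ℤ) - 1 ≤ n → Function.Bijective (T.comp m n A)) ∧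
    Function.Injective (T.comp m ((d : ℤ) - 2) A)

/-- The Quillen-Lichtenbaum dimension: the least `d ≥ 0` with `IsBound A d`, and infinity if there
is none. -/
noncomputable def dimQL (A : T.Cat) : ℕ∞ := ⨅ (d : ℕ) (_ : T.IsBound A d), (d : ℕ∞)

/-- The statement of Q1: the Quillen-Lichtenbaum dimension of a smooth category is finite. -/
def Q1 : Prop := ∀ A : T.Cat, T.Smooth A → T.dimQL A < ⊤

/-- Multiplication by the Bott element of `K_2(ℂ, ℤ_2)` on K-theory with coefficients `ℤ/2`; it is
bijective on the topological K-theory and compatible with the comparison map. -/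
structure Bott where
  /-- multiplication by the Bott element, `K_i(A, ℤ/2) → K_k(A, ℤ/2)` for `k = i + 2` -/
  alg : ∀ (i k : ℤ), k = i + 2 → ∀ A : T.Cat, T.K 2 i A ⟶ T.K 2 k A
  /-- the same on topological K-theory -/
  top : ∀ (i k : ℤ), k = i + 2 → ∀ A : T.Cat, T.Ktop 2 i A ⟶ T.Ktop 2 k A
  top_isIso : ∀ (i k : ℤ) (h : k = i + 2) (A : T.Cat), IsIso (top i k h A)
  comm : ∀ (i k : ℤ) (h : k = i + 2) (A : T.Cat),
    alg i k h A ≫ T.comp 2 k A = T.comp 2 i A ≫ top i k h A

end KTheory

/-- Exactness of `X → Y → Z`. -/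
def IsExact {X Y Z : AddCommGrpCat.{v}} (f : X ⟶ Y) (g : Y ⟶ Z) : Prop :=
  Function.Exact f g

/-- The endomorphism `f - 1`. -/
def subOne {X : AddCommGrpCat.{v}} (f : X ⟶ X) : X ⟶ X := f - 𝟙 X

/-- The semidirect product `G ⋊ ℤ` for the automorphism `σ` of the group `G`. -/
def Torus (G : Type) [Group G] (σ : MulAut G) : Type :=
  G ⋊[zpowersHom (MulAut G) σ] Multiplicative ℤ

instance (G : Type) [Group G] (σ : MulAut G) : Group (Torus G σ) :=
  (inferInstance : Group (G ⋊[zpowersHom (MulAut G) σ] Multiplicative ℤ))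

/-- The inclusion `G → G ⋊ ℤ`. -/
def Torus.incl {G : Type} [Group G] (σ : MulAut G) : G →* Torus G σ := SemidirectProduct.inl

/-- The semidirect product `G ⋊ ℤ` in the category of groups. -/
def torus (G : GrpCat.{0}) (σ : MulAut G) : GrpCat.{0} := GrpCat.of (Torus G σ)

/-- The inclusion `G → G ⋊ ℤ` in the category of groups. -/
def torusIncl (G : GrpCat.{0}) (σ : MulAut G) : G ⟶ torus G σ := GrpCat.ofHom (Torus.incl σ)

/-- An automorphism of a group as a morphism of the category of groups. -/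
def autHom (G : GrpCat.{0}) (σ : MulAut G) : G ⟶ G := GrpCat.ofHom σ.toMonoidHom

/-- The group `A / 2`. -/
def Mod2 (A : Type) [AddCommGroup A] : Type := ModN A 2

noncomputable instance (A : Type) [AddCommGroup A] : AddCommGroup (Mod2 A) :=
  (inferInstance : AddCommGroup (ModN A 2))

noncomputable instance (A : Type) [AddCommGroup A] : Module (ZMod 2) (Mod2 A) :=
  (inferInstance : Module (ZMod 2) (ModN A 2))

/-- The quotient map `A → A / 2`. -/
noncomputable def Mod2.mk {A : Type} [AddCommGroup A] : A →+ Mod2 A := ModN.mkQ 2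

lemma Mod2.mk_surjective {A : Type} [AddCommGroup A] :
    Function.Surjective (Mod2.mk : A →+ Mod2 A) :=
  Submodule.mkQ_surjective _

lemma Mod2.mk_eq_zero {A : Type} [AddCommGroup A] {a : A} :
    Mod2.mk a = 0 ↔ ∃ b : A, (2 : ℤ) • b = a :=
  (Submodule.Quotient.mk_eq_zero _).trans Iff.rfl

lemma two_smul_eq_zero' {W : Type} [AddCommGroup W] [Module (ZMod 2) W] (w : W) :
    (2 : ℕ) • w = 0 := by
  rw [← Nat.cast_smul_eq_nsmul (ZMod 2), ZMod.natCast_self, zero_smul]

lemma lift_aux {A W : Type} [AddCommGroup A] [AddCommGroup W] [Module (ZMod 2) W] (f : A →+ W)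
    (a : A) (ha : a ∈ (LinearMap.range (LinearMap.lsmul ℤ A 2)).toAddSubgroup) : f a = 0 := by
  obtain ⟨b, rfl⟩ := ha
  have h : (LinearMap.lsmul ℤ A 2) b = (2 : ℕ) • b := natCast_zsmul b 2
  rw [h, map_nsmul]
  exact two_smul_eq_zero' _

/-- A homomorphism from `A / 2` to a vector space over `ℤ/2` is a homomorphism from `A`. -/
noncomputable def Mod2.liftHom {A W : Type} [AddCommGroup A] [AddCommGroup W] [Module (ZMod 2) W]
    (f : A →+ W) : Mod2 A →+ W :=
  QuotientAddGroup.lift _ f (lift_aux f)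

/-- A linear map from `A / 2` to a vector space over `ℤ/2` is a homomorphism from `A`. -/
noncomputable def Mod2.lift {A W : Type} [AddCommGroup A] [AddCommGroup W] [Module (ZMod 2) W]
    (f : A →+ W) : Mod2 A →ₗ[ZMod 2] W :=
  (Mod2.liftHom f).toZModLinearMap 2

/-- The map `A / 2 → B / 2` defined by a homomorphism `A → B`. -/
noncomputable def Mod2.map {A B : Type} [AddCommGroup A] [AddCommGroup B] (f : A →+ B) :
    Mod2 A →ₗ[ZMod 2] Mod2 B :=
  Mod2.lift (Mod2.mk.comp f)

/-- The exterior power of degree `n` of the `k`-module `W`. -/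
def ExtPow (k : Type) [CommRing k] (n : ℕ) (W : Type) [AddCommGroup W] [Module k W] : Type :=
  ⋀[k]^n W

noncomputable instance (k : Type) [CommRing k] (n : ℕ) (W : Type) [AddCommGroup W]
    [Module k W] : AddCommGroup (ExtPow k n W) :=
  (inferInstance : AddCommGroup (⋀[k]^n W))

noncomputable instance (k : Type) [CommRing k] (n : ℕ) (W : Type) [AddCommGroup W]
    [Module k W] : Module k (ExtPow k n W) :=
  (inferInstance : Module k (⋀[k]^n W))

/-- The map on the exterior powers defined by a linear map. -/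
noncomputable def ExtPow.lin {k : Type} [CommRing k] (n : ℕ) {W W' : Type} [AddCommGroup W]
    [Module k W] [AddCommGroup W'] [Module k W'] (f : W →ₗ[k] W') :
    ExtPow k n W →ₗ[k] ExtPow k n W' :=
  exteriorPower.map n f

/-- The homomorphism of the exterior powers defined by a linear map. -/
noncomputable def ExtPow.map {k : Type} [CommRing k] (n : ℕ) {W W' : Type} [AddCommGroup W]
    [Module k W] [AddCommGroup W'] [Module k W'] (f : W →ₗ[k] W') :
    ExtPow k n W →+ ExtPow k n W' :=
  (ExtPow.lin n f).toAddMonoidHom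

/-- The exterior power of degree `n` of `A / 2`, as a group. -/
noncomputable def extPow (n : ℕ) (A : Type) [AddCommGroup A] : AddCommGrpCat.{0} :=
  AddCommGrpCat.of (ExtPow (ZMod 2) n (Mod2 A))

/-- The map on the exterior powers of `A / 2` defined by a homomorphism `A → B`. -/
noncomputable def extMap (n : ℕ) {A B : Type} [AddCommGroup A] [AddCommGroup B] (f : A →+ B) :
    extPow n A ⟶ extPow n B :=
  AddCommGrpCat.ofHom (ExtPow.map n (Mod2.map f))

/-- The additive group `A`, written multiplicatively, in the category of groups. -/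
def mulGrp (A : Type) [AddCommGroup A] : GrpCat.{0} := GrpCat.of (Multiplicative A)

/-- A homomorphism of additive groups, in the category of groups. -/
def mulGrpHom {A B : Type} [AddCommGroup A] [AddCommGroup B] (f : A →+ B) :
    mulGrp A ⟶ mulGrp B :=
  GrpCat.ofHom (AddMonoidHom.toMultiplicative f)

variable {T : KTheory.{u, 0}}

/-- For each group `G` the category `Perf(ℂ[G])` of perfect complexes over the group ring, and the
cofibre `M(G)` of the multiplication by the Bott element on `K(ℂ[G]; ℤ/2)`: its homotopy groups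
`M_n(G)`, functorial in `G`, and its long exact sequence
`K_(n-2)(ℂ[G], ℤ/2) → K_n(ℂ[G], ℤ/2) → M_n(G) → K_(n-3)(ℂ[G], ℤ/2) → K_(n-1)(ℂ[G], ℤ/2)`. -/
structure Cofibre (B : T.Bott) where
  /-- `Perf(ℂ[G])` -/
  perf : GrpCat.{0} → T.Cat
  /-- `M_n(G)` -/
  M : ℤ → (GrpCat.{0} ⥤ AddCommGrpCat.{0})
  /-- `K_n(ℂ[G], ℤ/2) → M_n(G)` -/
  proj : ∀ (n : ℤ) (G : GrpCat.{0}), T.K 2 n (perf G) ⟶ (M n).obj G
  /-- `M_n(G) → K_i(ℂ[G], ℤ/2)`, `i = n - 3` -/
  bdry : ∀ (n i : ℤ), n = i + 3 → ∀ G : GrpCat.{0}, (M n).obj G ⟶ T.K 2 i (perf G)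
  exact₁ : ∀ (i n : ℤ) (h : n = i + 2) (G : GrpCat.{0}),
    IsExact (B.alg i n h (perf G)) (proj n G)
  exact₂ : ∀ (n i : ℤ) (h : n = i + 3) (G : GrpCat.{0}),
    IsExact (proj n G) (bdry n i h G)
  exact₃ : ∀ (n i k : ℤ) (h : n = i + 3) (h' : k = i + 2) (G : GrpCat.{0}),
    IsExact (bdry n i h G) (B.alg i k h' (perf G))

/-- The Wang sequence of the theory `M` for the group rings of semidirect products with `ℤ`. -/
structure Wang {B : T.Bott} (C : Cofibre B) where
  /-- the boundary map -/
  bdry : ∀ (n i : ℤ), n = i + 1 → ∀ (G : GrpCat.{0}) (σ : MulAut G),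
    (C.M n).obj (torus G σ) ⟶ (C.M i).obj G
  exact₁ : ∀ (n : ℤ) (G : GrpCat.{0}) (σ : MulAut G),
    IsExact (subOne ((C.M n).map (autHom G σ))) ((C.M n).map (torusIncl G σ))
  exact₂ : ∀ (n i : ℤ) (h : n = i + 1) (G : GrpCat.{0}) (σ : MulAut G),
    IsExact ((C.M n).map (torusIncl G σ)) (bdry n i h G σ)
  exact₃ : ∀ (n i : ℤ) (h : n = i + 1) (G : GrpCat.{0}) (σ : MulAut G),
    IsExact (bdry n i h G σ) (subOne ((C.M i).map (autHom G σ)))

/-- `M_n(A)` for a torsion-free abelian group `A` is the exterior power of `A / 2`, naturally. -/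
structure AbelianValues {B : T.Bott} (C : Cofibre B) where
  /-- the isomorphism -/
  iso : ∀ (n : ℕ) (A : Type) [AddCommGroup A] [IsAddTorsionFree A],
    (C.M n).obj (mulGrp A) ≅ extPow n A
  natural : ∀ (n : ℕ) (A A' : Type) [AddCommGroup A] [IsAddTorsionFree A] [AddCommGroup A']
    [IsAddTorsionFree A'] (f : A →+ A'),
    (C.M n).map (mulGrpHom f) ≫ (iso n A').hom = (iso n A).hom ≫ extMap n f

/-- For a finitely presented group `G` there is a smooth category with the K-groups with
coefficients `ℤ/2` of the group ring `ℂ[G]`, compatibly with the Bott element. -/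
def SmoothModel {B : T.Bott} (C : Cofibre B) : Prop :=
  ∀ G : GrpCat.{0}, Group.IsFinitelyPresented G → ∃ L : T.Cat, T.Smooth L ∧
    ∃ e : ∀ n : ℤ, T.K 2 n L ≅ T.K 2 n (C.perf G),
      ∀ (i k : ℤ) (h : k = i + 2),
        B.alg i k h L ≫ (e k).hom = (e i).hom ≫ B.alg i k h (C.perf G)

end Pool.Agent.TH177.QL
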