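import Mathlib

/-!
# Exterior powers of a vector space with an endomorphism
-/

open Module

namespace Pool.Agent.TH177.QL

section Injective

variable {k : Type*} [Field k] {V : Type*} [AddCommGroup V] [Module k V]

lemma map_map_apply {V₁ V₂ V₃ : Type*} [AddCommGroup V₁] [Module k V₁] [AddCommGroup V₂]
    [Module k V₂] [AddCommGroup V₃] [Module k V₃] {n : ℕ} (g : V₂ →ₗ[k] V₃) (f : V₁ →ₗ[k] V₂)
    (z : ⋀[k]^n V₁) : exteriorPower.map n g (exteriorPower.map n f z) =
      exteriorPower.map n (g ∘ₗ f) z :=
  (LinearMap.congr_fun (exteriorPower.map_comp f g) z).symm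

lemma map_zero_eq {W : Type*} [AddCommGroup W] [Module k W] {n : ℕ} (hn : n ≠ 0) :
    exteriorPower.map n (0 : V →ₗ[k] W) = 0 := by
  refine exteriorPower.linearMap_ext ?_
  ext v
  rw [exteriorPower.map_comp_ιMulti]
  obtain ⟨m, rfl⟩ := Nat.exists_eq_succ_of_ne_zero hn
  simp

lemma exists_finite {n : ℕ} (w : ⋀[k]^n V) :
    ∃ U : Submodule k V, FiniteDimensional k U ∧
      ∃ w' : ⋀[k]^n U, exteriorPower.map n U.subtype w' = w := by
  have hw : w ∈ Submodule.span k (Set.range (exteriorPower.ιMulti k n (M := V))) := by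
    rw [exteriorPower.ιMulti_span]
    exact Submodule.mem_top
  induction hw using Submodule.span_induction with
  | mem x hx =>
    obtain ⟨v, rfl⟩ := hx
    refine ⟨Submodule.span k (Set.range v), FiniteDimensional.span_of_finite k (Set.finite_range v),
      exteriorPower.ιMulti k n (fun i => ⟨v i, Submodule.subset_span ⟨i, rfl⟩⟩), ?_⟩
    rw [exteriorPower.map_apply_ιMulti]
    rfl
  | zero =>
    exact ⟨⊥, inferInstance, 0, map_zero _⟩
  | add x y _ _ hx hy =>
    obtain ⟨U, hU, x', hx'⟩ := hx
    obtain ⟨U', hU', y', hy'⟩ := hy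
    refine ⟨U ⊔ U', inferInstance,
      exteriorPower.map n (Submodule.inclusion le_sup_left) x' +
        exteriorPower.map n (Submodule.inclusion le_sup_right) y', ?_⟩
    rw [map_add, map_map_apply, map_map_apply, ← hx', ← hy']
    rfl
  | smul a x _ hx =>
    obtain ⟨U, hU, x', hx'⟩ := hx
    exact ⟨U, hU, a • x', by rw [map_smul, hx']⟩

lemma map_pow_fixed {T : V →ₗ[k] V} {n : ℕ} {w : ⋀[k]^n V} (hw : exteriorPower.map n T w = w)
    (j : ℕ) : exteriorPower.map n (T ^ j) w = w := by
  induction j with
  | zero =>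
    have : (T ^ 0 : V →ₗ[k] V) = LinearMap.id := pow_zero T
    rw [this, exteriorPower.map_id]
    rfl
  | succ j ih =>
    have : (T ^ (j + 1) : V →ₗ[k] V) = (T ^ j : V →ₗ[k] V) ∘ₗ T := pow_succ T j
    rw [this, ← map_map_apply, hw, ih]

/-- If every finite-dimensional subspace `U` is disjoint from some `T ^ j U`, then `T - 1` is injective
on the exterior powers of positive degree. -/
theorem exterior_fixed (T : V →ₗ[k] V)
    (hT : ∀ U : Submodule k V, FiniteDimensional k U → ∃ j : ℕ, Disjoint U (U.map (T ^ j)))
    {n : ℕ} (hn : n ≠ 0) (w : ⋀[k]^n V) (hw : exteriorPower.map n T w = w) : w = 0 := by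
  obtain ⟨U, hU, w', rfl⟩ := exists_finite w
  obtain ⟨j, hj⟩ := hT U hU
  obtain ⟨C, hC, hcompl⟩ := hj.symm.exists_isCompl
  -- the projection to `U`
  obtain ⟨π, hπ⟩ : ∃ π : V →ₗ[k] V, π = U.subtype ∘ₗ U.projectionOnto C hcompl.symm := ⟨_, rfl⟩
  have h1 : π ∘ₗ U.subtype = U.subtype := by
    ext x
    simp [hπ]
  have h2 : π ∘ₗ ((T ^ j) ∘ₗ U.subtype) = 0 := by
    ext x
    have hx : (T ^ j) (x : V) ∈ C := hC (Submodule.mem_map_of_mem x.2)
    simp only [hπ, LinearMap.comp_apply, Submodule.subtype_apply, LinearMap.zero_apply]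
    rw [Submodule.coe_eq_zero]
    exact (Submodule.projectionOnto_apply_eq_zero_iff _).2 hx
  have h3 := map_pow_fixed hw j
  have h4 : exteriorPower.map n π (exteriorPower.map n U.subtype w') =
      exteriorPower.map n U.subtype w' := by
    rw [map_map_apply, h1]
  have h5 : exteriorPower.map n π (exteriorPower.map n (T ^ j)
      (exteriorPower.map n U.subtype w')) = 0 := by
    rw [map_map_apply (T ^ j), map_map_apply π, h2, map_zero_eq hn]
    rfl
  rw [h3, h4] at h5
  exact h5

/-- If the endomorphism `T` has no periodic points except zero, over a finite field, then `T - 1` is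
injective on the exterior powers of positive degree. -/
theorem exterior_fixed_of_finite [Finite k] (T : V →ₗ[k] V) (hinj : Function.Injective T)
    (hT : ∀ (m : ℕ) (v : V), m ≠ 0 → (T ^ m) v = v → v = 0)
    {n : ℕ} (hn : n ≠ 0) (w : ⋀[k]^n V) (hw : exteriorPower.map n T w = w) : w = 0 := by
  refine exterior_fixed T ?_ hn w hw
  intro U hU
  have hfin : Finite U := Module.finite_of_finite k
  by_contra hcon
  push Not at hcon
  -- for all `j` there are nonzero vectors `u`, `u'` in `U` with `T ^ j u = u'`
  have key : ∀ j : ℕ, ∃ p : U × U, p.1 ≠ 0 ∧ (T ^ j) (p.1 : V) = p.2 := by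
    intro j
    have h := hcon j
    rw [Submodule.disjoint_def] at h
    push Not at h
    obtain ⟨y, hy, hy', hne⟩ := h
    obtain ⟨x, hx, rfl⟩ := hy'
    refine ⟨(⟨x, hx⟩, ⟨(T ^ j) x, hy⟩), ?_, rfl⟩
    intro h0
    apply hne
    have : x = 0 := congrArg Subtype.val h0
    rw [this, map_zero]
  choose p hp using key
  obtain ⟨i, j, hij, hpij⟩ := Finite.exists_ne_map_eq_of_infinite p
  wlog hlt : i < j generalizing i j
  · exact this j i hij.symm hpij.symm (lt_of_le_of_ne (not_lt.1 hlt) hij.symm)
  have h1 : (T ^ i) ((T ^ (j - i)) ((p i).1 : V)) = (T ^ i) ((p i).1 : V) := by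
    rw [← Module.End.mul_apply, ← pow_add, show i + (j - i) = j by omega, (hp i).2, hpij]
    have h2 := (hp j).2
    rw [← hpij] at h2 ⊢
    exact h2
  have h2 : Function.Injective (T ^ i : V →ₗ[k] V) := by
    rw [Module.End.coe_pow]
    exact hinj.iterate i
  have h3 := hT (j - i) ((p i).1 : V) (by omega) (h2 h1)
  exact (hp i).1 (Subtype.ext h3)

end Injective

section Determinant

variable {k : Type*} [Field k] {V : Type*} [AddCommGroup V] [Module k V] {F : Type*} [Field F]
  [Algebra k F] {n : ℕ}

lemma of_update (e : Fin n → (V →ₗ[k] F)) (v : Fin n → V) (i : Fin n) (z : V) :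
    (Matrix.of fun a b => e b (Function.update v i z a)) =
      (Matrix.of fun a b => e b (v a)).updateRow i (fun j => e j z) := by
  ext a b
  by_cases ha : a = i
  · subst ha; simp [Matrix.updateRow_apply]
  · simp [Matrix.updateRow_apply, ha]

/-- The alternating map `v ↦ det (e_j (v_i))`. -/
noncomputable def detAlt (e : Fin n → (V →ₗ[k] F)) : V [⋀^Fin n]→ₗ[k] F :=
  { toFun := fun v => (Matrix.of fun i j => e j (v i)).det
    map_update_add' := by
      intro inst v i x y
      obtain rfl : inst = instDecidableEqFin n := Subsingleton.elim _ _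
      have h := Matrix.det_updateRow_add (Matrix.of fun i j => e j (v i)) i (fun j => e j x)
        (fun j => e j y)
      rw [of_update, of_update, of_update, ← h]
      congr 2
      ext j
      simp
    map_update_smul' := by
      intro inst v i c x
      obtain rfl : inst = instDecidableEqFin n := Subsingleton.elim _ _
      have h := Matrix.det_updateRow_smul (Matrix.of fun i j => e j (v i)) i (algebraMap k F c)
        (fun j => e j x)
      rw [of_update, of_update, Algebra.smul_def, ← h]
      congr 2
      ext j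
      simp [Algebra.smul_def]
    map_eq_zero_of_eq' := by
      intro v i j hv hij
      refine Matrix.det_zero_of_row_eq hij ?_
      ext a
      simp [hv] }

/-- The linear map on the exterior power defined by the determinant. -/
noncomputable def detMap (e : Fin n → (V →ₗ[k] F)) : ⋀[k]^n V →ₗ[k] F :=
  exteriorPower.alternatingMapLinearEquiv (detAlt e)

lemma detMap_apply (e : Fin n → (V →ₗ[k] F)) (v : Fin n → V) :
    detMap e (exteriorPower.ιMulti k n v) = (Matrix.of fun i j => e j (v i)).det := by
  rw [detMap, exteriorPower.alternatingMapLinearEquiv_apply_ιMulti]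
  rfl

/-- If the functions `e_j` are eigenvectors of `T` with product of the eigenvalues `1`, then the
determinant is invariant. -/
lemma detMap_map (e : Fin n → (V →ₗ[k] F)) (T : V →ₗ[k] V) (a : Fin n → F)
    (ha : ∀ j v, e j (T v) = a j * e j v) (hprod : ∏ j, a j = 1) (w : ⋀[k]^n V) :
    detMap e (exteriorPower.map n T w) = detMap e w := by
  have h : detMap e ∘ₗ exteriorPower.map n T = detMap e := by
    refine exteriorPower.linearMap_ext ?_
    ext v
    change detMap e (exteriorPower.map n T (exteriorPower.ιMulti k n v)) =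
      detMap e (exteriorPower.ιMulti k n v)
    rw [exteriorPower.map_apply_ιMulti, detMap_apply, detMap_apply]
    have h1 : (Matrix.of fun i j => e j ((T ∘ v) i)) =
        Matrix.of fun i j => a j * (Matrix.of fun i j => e j (v i)) i j := by
      ext i j
      simp [ha]
    rw [h1, Matrix.det_mul_row, hprod, one_mul]
  exact LinearMap.congr_fun h w

end Determinant

end Pool.Agent.TH177.QL
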