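import Pool.Agent.TH177.QL.Points

/-!
# The theory `M` of Baumslag's group
-/

open CategoryTheory Polynomial

universe u

namespace Pool.Agent.TH177.QL

section General

lemma subOne_apply {X : AddCommGrpCat.{u}} (f : X ⟶ X) (x : X) : subOne f x = f x - x := rfl

lemma isExact_zero {X Y Z : AddCommGrpCat.{u}} {f : X ⟶ Y} {g : Y ⟶ Z} (h : IsExact f g) (x : X) :
    g (f x) = 0 := (h (f x)).2 ⟨x, rfl⟩

lemma isExact_lift {X Y Z : AddCommGrpCat.{u}} {f : X ⟶ Y} {g : Y ⟶ Z} (h : IsExact f g) (y : Y)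
    (hy : g y = 0) : ∃ x : X, f x = y := (h y).1 hy

end General

/-- For commuting automorphisms `σ`, `τ` of `G` the automorphism of `G ⋊_σ ℤ` which is `τ` on `G` and
fixes the generator of `ℤ`. -/
def Torus.aut {G : Type} [Group G] (σ τ : MulAut G) (h : Commute σ τ) : MulAut (Torus G σ) :=
  SemidirectProduct.congr (φ₁ := zpowersHom (MulAut G) σ) (φ₂ := zpowersHom (MulAut G) σ) τ
    (MulEquiv.refl _) (fun g => by
      ext x
      have h1 : Commute τ (σ ^ (Multiplicative.toAdd g)) := h.symm.zpow_right _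
      have h2 := congrArg (fun a : MulAut G => a x) h1.eq
      simpa using h2)

lemma Torus.aut_incl {G : Type} [Group G] (σ τ : MulAut G) (h : Commute σ τ) (x : G) :
    Torus.aut σ τ h (Torus.incl σ x) = Torus.incl σ (τ x) := by
  refine SemidirectProduct.ext rfl rfl

/-- Multiplication by a unit as an automorphism of the additive group. -/
noncomputable def mulUnit (u : BRˣ) : BR ≃+ BR where
  toFun f := u * f
  invFun f := (u⁻¹ : BRˣ) * f
  left_inv f := Units.inv_mul_cancel_left u f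
  right_inv f := Units.mul_inv_cancel_left u f
  map_add' f g := mul_add _ _ _

/-- Multiplication by a unit as an automorphism of the group. -/
noncomputable def autBR (u : BRˣ) : MulAut (mulGrp BR) := AddEquiv.toMultiplicative (mulUnit u)

lemma autBR_commute (u v : BRˣ) : Commute (autBR u) (autBR v) := by
  refine MulEquiv.ext ?_
  intro f
  have h : ∀ g : BR, (u : BR) * ((v : BR) * g) = (v : BR) * ((u : BR) * g) :=
    fun g => mul_left_comm _ _ _
  exact h f

/-- The group `BR ⋊_x ℤ`. -/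
noncomputable abbrev Gx : GrpCat.{0} := torus (mulGrp BR) (autBR ux)

/-- The automorphism of `BR ⋊_x ℤ` defined by `1 + x`. -/
noncomputable def autGx : MulAut Gx := Torus.aut (autBR ux) (autBR uy) (autBR_commute ux uy)

/-- Baumslag's group `(BR ⋊_x ℤ) ⋊_(1+x) ℤ`. -/
noncomputable abbrev BG : GrpCat.{0} := torus Gx autGx

lemma autHom_mulGrp (u : BRˣ) :
    autHom (mulGrp BR) (autBR u) = mulGrpHom (AddMonoidHom.mulLeft (u : BR)) := rfl

lemma torusIncl_autHom : torusIncl (mulGrp BR) (autBR ux) ≫ autHom Gx autGx =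
    autHom (mulGrp BR) (autBR uy) ≫ torusIncl (mulGrp BR) (autBR ux) := by
  refine GrpCat.hom_ext ?_
  refine MonoidHom.ext ?_
  intro f
  exact Torus.aut_incl (autBR ux) (autBR uy) (autBR_commute ux uy) f

variable {T : KTheory.{u, 0}} {B : T.Bott} {C : Cofibre B}

lemma fixed_eq_zero (E : AbelianValues C) (n : ℕ) (hn : n ≠ 0) (y : (C.M n).obj (mulGrp BR))
    (hy : (C.M n).map (autHom (mulGrp BR) (autBR ux)) y = y) : y = 0 := by
  have h1 := E.natural n BR BR (AddMonoidHom.mulLeft (ux : BR))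
  have h2 : (E.iso n BR).hom ((C.M n).map (mulGrpHom (AddMonoidHom.mulLeft (ux : BR))) y) =
      extMap n (AddMonoidHom.mulLeft (ux : BR)) ((E.iso n BR).hom y) := by
    rw [← ConcreteCategory.comp_apply, h1, ConcreteCategory.comp_apply]
  rw [← autHom_mulGrp, hy] at h2
  have h3 : (E.iso n BR).hom y = 0 :=
    exterior_fixed_of_finite Tx Tx_injective (fun m v hm h => Tx_periodic m v hm h) hn
      ((E.iso n BR).hom y) h2.symm
  have h4 : (E.iso n BR).inv ((E.iso n BR).hom y) = y := by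
    rw [← ConcreteCategory.comp_apply, Iso.hom_inv_id, ConcreteCategory.id_apply]
  rw [← h4, h3, map_zero]

lemma incl_surjective (W : Wang C) (E : AbelianValues C) (n : ℕ) (hn : n ≠ 0)
    (z : (C.M ((n + 1 : ℕ) : ℤ)).obj Gx) :
    ∃ z', (C.M ((n + 1 : ℕ) : ℤ)).map (torusIncl (mulGrp BR) (autBR ux)) z' = z := by
  have hn1 : ((n + 1 : ℕ) : ℤ) = (n : ℤ) + 1 := by push_cast; ring
  refine isExact_lift (W.exact₂ _ n hn1 (mulGrp BR) (autBR ux)) z ?_
  refine fixed_eq_zero E n hn _ ?_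
  have h := isExact_zero (W.exact₃ _ n hn1 (mulGrp BR) (autBR ux)) z
  rw [subOne_apply] at h
  exact sub_eq_zero.1 h

lemma iso_surjective (E : AbelianValues C) (N : ℕ) (w : extPow N BR) : ∃ w', (E.iso N BR).hom w' = w := by
  refine ⟨(E.iso N BR).inv w, ?_⟩
  rw [← ConcreteCategory.comp_apply, Iso.inv_hom_id, ConcreteCategory.id_apply]

theorem exists_ne_zero (W : Wang C) (E : AbelianValues C) (r : ℕ) (hr : 2 ≤ r) :
    ∃ y : (C.M ((2 ^ r - 2 : ℕ) : ℤ)).obj BG, y ≠ 0 := by
  obtain ⟨F, instF, instA, φ, hx, hy, w, hw⟩ := exists_functional r (by omega)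
  obtain ⟨n, hn0, hn⟩ : ∃ n : ℕ, n ≠ 0 ∧ 2 ^ r - 2 = n + 1 := by
    have h4 : 4 ≤ 2 ^ r := by
      calc 4 = 2 ^ 2 := rfl
        _ ≤ 2 ^ r := Nat.pow_le_pow_right (by norm_num) hr
    exact ⟨2 ^ r - 3, by omega, by omega⟩
  have hsurj := incl_surjective W E n hn0
  rw [← hn] at hsurj
  generalize 2 ^ r - 2 = N at *
  obtain ⟨Φ, hΦ⟩ : ∃ Φ : (C.M (N : ℤ)).obj (mulGrp BR) → F, Φ = fun y => φ ((E.iso N BR).hom y) :=
    ⟨_, rfl⟩
  have hΦsub : ∀ a b, Φ (a - b) = Φ a - Φ b := by
    intro a b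
    simp only [hΦ, map_sub]
    exact map_sub φ _ _
  have hnat : ∀ (u : BRˣ) y, (E.iso N BR).hom ((C.M N).map (autHom (mulGrp BR) (autBR u)) y) =
      extMap N (AddMonoidHom.mulLeft (u : BR)) ((E.iso N BR).hom y) := by
    intro u y
    rw [autHom_mulGrp, ← ConcreteCategory.comp_apply, E.natural, ConcreteCategory.comp_apply]
  have hΦx : ∀ y, Φ (subOne ((C.M N).map (autHom (mulGrp BR) (autBR ux))) y) = 0 := by
    intro y
    rw [subOne_apply, hΦsub, sub_eq_zero]
    simp only [hΦ]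
    rw [hnat]
    exact hx _
  have hΦy : ∀ y, Φ ((C.M N).map (autHom (mulGrp BR) (autBR uy)) y - y) = 0 := by
    intro y
    rw [hΦsub, sub_eq_zero]
    simp only [hΦ]
    rw [hnat]
    exact hy _
  obtain ⟨w', hw'⟩ := iso_surjective E N w
  have hΦw : Φ w' ≠ 0 := by
    simp only [hΦ]
    rw [hw']
    exact hw
  refine ⟨(C.M N).map (torusIncl Gx autGx) ((C.M N).map (torusIncl (mulGrp BR) (autBR ux)) w'), ?_⟩
  intro hzero
  obtain ⟨z, hz⟩ := isExact_lift (W.exact₁ N Gx autGx) _ hzero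
  obtain ⟨z', rfl⟩ := hsurj z
  rw [subOne_apply] at hz
  have h1 : (C.M N).map (autHom Gx autGx) ((C.M N).map (torusIncl (mulGrp BR) (autBR ux)) z') =
      (C.M N).map (torusIncl (mulGrp BR) (autBR ux))
        ((C.M N).map (autHom (mulGrp BR) (autBR uy)) z') := by
    have e1 := congrArg (fun f => (C.M N).map f) torusIncl_autHom
    simp only [Functor.map_comp] at e1
    have e2 := congrArg (fun f => f z') e1
    simpa only [ConcreteCategory.comp_apply] using e2
  rw [h1, ← map_sub] at hz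
  have h2 : (C.M N).map (torusIncl (mulGrp BR) (autBR ux))
      (w' - ((C.M N).map (autHom (mulGrp BR) (autBR uy)) z' - z')) = 0 := by
    rw [map_sub, hz, sub_self]
  obtain ⟨z'', hz''⟩ := isExact_lift (W.exact₁ N (mulGrp BR) (autBR ux)) _ h2
  have h3 := congrArg Φ hz''
  rw [hΦx, hΦsub, hΦy, sub_zero] at h3
  exact hΦw h3.symm

end Pool.Agent.TH177.QL
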