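import Pool.Agent.TH177.QL.Conj
import Pool.Agent.TH177.QL.Homology

/-!
# Baumslag's group is finitely presented
-/

open Polynomial

namespace Pool.Agent.TH177.QL

section Torus

variable {G : Type} [Group G] {σ : MulAut G}

/-- The generator of `ℤ` in `G ⋊ ℤ`. -/
def Torus.gen (σ : MulAut G) : Torus G σ := SemidirectProduct.inr (Multiplicative.ofAdd 1)

lemma Torus.gen_zpow (σ : MulAut G) (j : ℤ) :
    Torus.gen σ ^ j = SemidirectProduct.inr (Multiplicative.ofAdd j) := by
  have h := (map_zpow (SemidirectProduct.inr : Multiplicative ℤ →*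
    G ⋊[zpowersHom (MulAut G) σ] Multiplicative ℤ) (Multiplicative.ofAdd 1) j).symm
  refine h.trans ?_
  rw [← ofAdd_zsmul, smul_eq_mul, mul_one]

lemma Torus.gen_conj (σ : MulAut G) (g : G) :
    Torus.gen σ * Torus.incl σ g * (Torus.gen σ)⁻¹ = Torus.incl σ (σ g) := by
  have h := SemidirectProduct.inl_aut (φ := zpowersHom (MulAut G) σ) (Multiplicative.ofAdd 1) g
  have h2 : (zpowersHom (MulAut G) σ) (Multiplicative.ofAdd 1) = σ := by simp
  rw [h2, map_inv] at h
  exact h.symm

lemma Torus.exists_eq (x : Torus G σ) : ∃ (g : G) (j : ℤ), x = Torus.incl σ g * Torus.gen σ ^ j := by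
  refine ⟨x.left, Multiplicative.toAdd x.right, ?_⟩
  rw [Torus.gen_zpow]
  exact (SemidirectProduct.inl_left_mul_inr_right x).symm

lemma Torus.eq_one {g : G} {j : ℤ} (h : Torus.incl σ g * Torus.gen σ ^ j = 1) :
    g = 1 ∧ j = 0 := by
  rw [Torus.gen_zpow] at h
  have h' : (⟨g, Multiplicative.ofAdd j⟩ : G ⋊[zpowersHom (MulAut G) σ] Multiplicative ℤ) = 1 :=
    (SemidirectProduct.mk_eq_inl_mul_inr _ _).trans h
  exact ⟨congrArg SemidirectProduct.left h', congrArg SemidirectProduct.right h'⟩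

lemma Torus.aut_gen (σ τ : MulAut G) (h : Commute σ τ) :
    Torus.aut σ τ h (Torus.gen σ) = Torus.gen σ := by
  refine SemidirectProduct.ext ?_ rfl
  exact map_one τ

end Torus

/-- Multiplication by `x` as an automorphism. -/
noncomputable def autX : MulAut (Multiplicative BR) := AddEquiv.toMultiplicative (mulUnit ux)

/-- Multiplication by `1 + x` as an automorphism. -/
noncomputable def autY : MulAut (Multiplicative BR) := AddEquiv.toMultiplicative (mulUnit uy)

lemma autX_autY : Commute autX autY := autBR_commute ux uy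

/-- The automorphism of `BR ⋊ ℤ` defined by `1 + x`. -/
noncomputable def autY' : MulAut (Torus (Multiplicative BR) autX) := Torus.aut autX autY autX_autY

lemma autY'_incl (g : Multiplicative BR) :
    autY' (Torus.incl autX g) = Torus.incl autX (autY g) := Torus.aut_incl autX autY autX_autY g

lemma autY'_gen : autY' (Torus.gen autX) = Torus.gen autX := Torus.aut_gen autX autY autX_autY

/-- Baumslag's group. -/
abbrev BT : Type := Torus (Torus (Multiplicative BR) autX) autY'

/-- The subgroup `BR` of Baumslag's group. -/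
noncomputable def aB (r : BR) : BT := Torus.incl autY' (Torus.incl autX (Multiplicative.ofAdd r))

/-- The generator which acts as `x`. -/
noncomputable def sB : BT := Torus.incl autY' (Torus.gen autX)

/-- The generator which acts as `1 + x`. -/
noncomputable def tB : BT := Torus.gen autY'

lemma aB_add (r r' : BR) : aB (r + r') = aB r * aB r' := by
  simp only [aB, ofAdd_add, map_mul]

lemma aB_zero : aB 0 = 1 := by
  simp only [aB, ofAdd_zero, map_one]

lemma aB_zsmul (c : ℤ) (r : BR) : aB (c • r) = aB r ^ c := by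
  simp only [aB, ofAdd_zsmul, map_zpow]

lemma sB_conj (r : BR) : sB * aB r * sB⁻¹ = aB (ux * r) := by
  simp only [sB, aB]
  rw [← map_inv, ← map_mul, ← map_mul, Torus.gen_conj]
  rfl

lemma tB_conj (r : BR) : tB * aB r * tB⁻¹ = aB (uy * r) := by
  simp only [tB, aB]
  rw [Torus.gen_conj]
  rw [autY'_incl]
  rfl

lemma sB_tB : Commute sB tB := by
  have h : tB * sB * tB⁻¹ = sB := by
    simp only [tB, sB]
    rw [Torus.gen_conj]
    rw [autY'_gen]
  exact (mul_inv_eq_iff_eq_mul.1 h).symm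

lemma BT_exists (g : BT) : ∃ (r : BR) (i j : ℤ), g = aB r * (sB ^ i * tB ^ j) := by
  obtain ⟨g', j, rfl⟩ := Torus.exists_eq g
  obtain ⟨r, i, rfl⟩ := Torus.exists_eq g'
  refine ⟨Multiplicative.toAdd r, i, j, ?_⟩
  simp only [aB, sB, tB, map_mul, map_zpow, mul_assoc, ofAdd_toAdd]

lemma BT_eq_one {r : BR} {i j : ℤ} (h : aB r * (sB ^ i * tB ^ j) = 1) : r = 0 ∧ i = 0 ∧ j = 0 := by
  have h1 : Torus.incl autY' (Torus.incl autX (Multiplicative.ofAdd r) *
      Torus.gen autX ^ i) * Torus.gen autY' ^ j = 1 := by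
    refine Eq.trans ?_ h
    simp only [aB, sB, tB, map_mul, map_zpow, mul_assoc]
  obtain ⟨h2, h3⟩ := Torus.eq_one h1
  obtain ⟨h4, h5⟩ := Torus.eq_one h2
  exact ⟨h4, h5, h3⟩

lemma sB_pow_conj (n : ℕ) (r : BR) : sB ^ n * aB r * (sB ^ n)⁻¹ = aB ((ux : BR) ^ n * r) := by
  induction n with
  | zero => simp
  | succ n ih =>
    calc sB ^ (n + 1) * aB r * (sB ^ (n + 1))⁻¹ = sB * (sB ^ n * aB r * (sB ^ n)⁻¹) * sB⁻¹ := by
          simp only [pow_succ', mul_inv_rev, mul_assoc]
      _ = _ := by rw [ih, sB_conj, ← mul_assoc, ← pow_succ']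

lemma zB_pow_conj (n : ℕ) (r : BR) :
    (sB * tB) ^ n * aB r * ((sB * tB) ^ n)⁻¹ = aB (((ux : BR) * uy) ^ n * r) := by
  induction n with
  | zero => simp
  | succ n ih =>
    calc (sB * tB) ^ (n + 1) * aB r * ((sB * tB) ^ (n + 1))⁻¹ =
        sB * (tB * ((sB * tB) ^ n * aB r * ((sB * tB) ^ n)⁻¹) * tB⁻¹) * sB⁻¹ := by
          simp only [pow_succ', mul_inv_rev, mul_assoc]
      _ = _ := by rw [ih, tB_conj, sB_conj, ← mul_assoc, ← mul_assoc, ← pow_succ', pow_succ']

lemma toBR_monomial (n : ℕ) (c : ℤ) : toBR (monomial n c) = c • ((ux : BR) ^ n * 1) := by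
  rw [← C_mul_X_pow_eq_monomial, ← smul_eq_C_mul, map_zsmul, map_pow, mul_one, ux_val]

section Presentation

variable {H : Type*} [Group H] {a s t : H}

lemma map_theta (f : H →* BT) (fa : f a = aB 1) (fs : f s = sB) {θ : ℤ[X] → H}
    (hadd : ∀ p q, θ (p + q) = θ p * θ q)
    (hmono : ∀ (i : ℕ) (c : ℤ), θ (monomial i c) = av a s i ^ c) (p : ℤ[X]) :
    f (θ p) = aB (toBR p) := by
  induction p using Polynomial.induction_on' with
  | add p q hp hq => rw [hadd, map_mul, hp, hq, map_add, aB_add]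
  | monomial n c =>
    rw [hmono, map_zpow, av, map_mul, map_mul, map_inv, map_pow, fa, fs, sB_pow_conj,
      toBR_monomial, aB_zsmul]

lemma aB_eq (n : ℕ) (r r' : BR) (h : ((ux : BR) * uy) ^ n * r' = r) :
    ((sB * tB) ^ n)⁻¹ * aB r * (sB * tB) ^ n = aB r' := by
  rw [← h, ← zB_pow_conj]
  simp only [mul_assoc, inv_mul_cancel_left, inv_mul_cancel, mul_one]

theorem bijective_of_relations (f : H →* BT) (fa : f a = aB 1) (fs : f s = sB) (ft : f t = tB)
    (hst : Commute s t) (h1 : Commute a (s * a * s⁻¹)) (h2 : t * a * t⁻¹ = a * (s * a * s⁻¹))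
    (hgen : Subgroup.closure {a, s, t} = ⊤) : Function.Bijective f := by
  obtain ⟨θ, hadd, h0, hmono, hone, hs, ht⟩ := exists_theta hst h1 h2
  have hf := map_theta f fa fs hadd hmono
  constructor
  · rw [injective_iff_map_eq_one]
    intro g hg
    obtain ⟨n, p, i, j, rfl⟩ := normal_form (a := a) (g := g) hst hadd h0 hone hs ht
      (by rw [hgen]; exact Subgroup.mem_top g)
    obtain ⟨r', hr'⟩ : ∃ r', ((ux : BR) * uy) ^ n * r' = toBR p :=
      ⟨((((ux * uy) ^ n)⁻¹ : BRˣ) : BR) * toBR p, by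
        rw [← Units.val_mul, ← Units.val_pow_eq_pow_val, Units.mul_inv_cancel_left]⟩
    have h3 : aB r' * (sB ^ i * tB ^ j) = 1 := by
      rw [← hg, ← aB_eq n _ _ hr']
      simp only [map_mul, map_inv, map_pow, map_zpow, fs, ft, hf]
    obtain ⟨h4, h5, h6⟩ := BT_eq_one h3
    have h7 : p = 0 := by
      apply toBR_injective
      rw [← hr', h4, mul_zero, map_zero]
    rw [h5, h6, h7, h0]
    simp
  · intro g
    obtain ⟨r, i, j, rfl⟩ := BT_exists g
    obtain ⟨n, p, hp⟩ := IsLocalization.Away.surj (X * (1 + X) : ℤ[X]) r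
    have h3 : ((ux : BR) * uy) ^ n * r = toBR p := by
      rw [← hp, ux_val, uy_val, ← map_mul, mul_comm]
    refine ⟨((s * t) ^ n)⁻¹ * θ p * (s * t) ^ n * (s ^ i * t ^ j), ?_⟩
    rw [← aB_eq n _ _ h3]
    simp only [map_mul, map_inv, map_pow, map_zpow, fs, ft, hf]

end Presentation

/-- The relations of Baumslag's group. -/
def relB : Set (FreeGroup (Fin 3)) :=
  {FreeGroup.of 1 * FreeGroup.of 2 * (FreeGroup.of 1)⁻¹ * (FreeGroup.of 2)⁻¹,
    FreeGroup.of 0 * (FreeGroup.of 1 * FreeGroup.of 0 * (FreeGroup.of 1)⁻¹) * (FreeGroup.of 0)⁻¹ *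
      (FreeGroup.of 1 * FreeGroup.of 0 * (FreeGroup.of 1)⁻¹)⁻¹,
    FreeGroup.of 2 * FreeGroup.of 0 * (FreeGroup.of 2)⁻¹ *
      (FreeGroup.of 0 * (FreeGroup.of 1 * FreeGroup.of 0 * (FreeGroup.of 1)⁻¹))⁻¹}

/-- The images of the generators. -/
noncomputable def genB : Fin 3 → BT := ![aB 1, sB, tB]

lemma relB_one : ∀ r ∈ relB, FreeGroup.lift genB r = 1 := by
  have e1 : sB * aB 1 * sB⁻¹ = aB (ux * 1) := sB_conj 1
  have e2 : tB * aB 1 * tB⁻¹ = aB (uy * 1) := tB_conj 1
  have e3 : (uy : BR) * 1 = 1 + ux * 1 := by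
    rw [uy_val, ux_val, map_add, map_one, mul_one, mul_one]
  rintro _ (rfl | rfl | rfl)
  · simp only [map_mul, map_inv, FreeGroup.lift_apply_of]
    change sB * tB * sB⁻¹ * tB⁻¹ = 1
    rw [sB_tB.eq, mul_inv_cancel_right, mul_inv_cancel]
  · simp only [map_mul, map_inv, FreeGroup.lift_apply_of]
    change aB 1 * (sB * aB 1 * sB⁻¹) * (aB 1)⁻¹ * (sB * aB 1 * sB⁻¹)⁻¹ = 1
    have e4 : aB 1 * aB (ux * 1) = aB (ux * 1) * aB 1 := by
      rw [← aB_add, ← aB_add, add_comm (1 : BR) (ux * 1)]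
    rw [e1, e4, mul_inv_cancel_right, mul_inv_cancel]
  · simp only [map_mul, map_inv, FreeGroup.lift_apply_of]
    change tB * aB 1 * tB⁻¹ * (aB 1 * (sB * aB 1 * sB⁻¹))⁻¹ = 1
    rw [e1, e2, e3, aB_add, mul_inv_cancel]

theorem isFinitelyPresented_BT : Group.IsFinitelyPresented BT := by
  obtain ⟨f, hf⟩ : ∃ f : PresentedGroup relB →* BT, ∀ i, f (PresentedGroup.of i) = genB i :=
    ⟨PresentedGroup.toGroup relB_one, fun i => PresentedGroup.toGroup.of relB_one⟩
  have hrel : ∀ r ∈ relB, PresentedGroup.mk relB r = 1 := by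
    intro r hr
    exact PresentedGroup.one_of_mem hr
  have hbij : Function.Bijective f := by
    refine bijective_of_relations (a := PresentedGroup.of 0) (s := PresentedGroup.of 1)
      (t := PresentedGroup.of 2) f (hf 0) (hf 1) (hf 2) ?_ ?_ ?_ ?_
    · have h := hrel _ (Or.inl rfl)
      simp only [map_mul, map_inv] at h
      have h' := mul_inv_eq_one.1 h
      exact mul_inv_eq_iff_eq_mul.1 h'
    · have h := hrel _ (Or.inr (Or.inl rfl))
      simp only [map_mul, map_inv] at h
      have h' := mul_inv_eq_one.1 h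
      exact mul_inv_eq_iff_eq_mul.1 h'
    · have h := hrel _ (Or.inr (Or.inr rfl))
      simp only [map_mul, map_inv] at h
      exact mul_inv_eq_one.1 h
    · rw [← PresentedGroup.closure_range_of relB]
      congr 1
      ext x
      simp only [Set.mem_insert_iff, Set.mem_singleton_iff, Set.mem_range]
      constructor
      · rintro (rfl | rfl | rfl)
        exacts [⟨0, rfl⟩, ⟨1, rfl⟩, ⟨2, rfl⟩]
      · rintro ⟨i, rfl⟩
        fin_cases i
        exacts [Or.inl rfl, Or.inr (Or.inl rfl), Or.inr (Or.inr rfl)]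
  have hfin : relB.Finite := by
    unfold relB
    exact Set.toFinite _
  have : Finite relB := hfin.to_subtype
  exact Group.IsFinitelyPresented.equiv (MulEquiv.ofBijective f hbij)

/-- Baumslag's group is finitely presented. -/
theorem isFinitelyPresented_BG : Group.IsFinitelyPresented BG := isFinitelyPresented_BT

end Pool.Agent.TH177.QL
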