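import Pool.Agent.TH177.QL.Homology
import Pool.Agent.TH177.QL.FP

/-!
# Finite Quillen-Lichtenbaum dimension makes the theory `M` bounded
-/

open CategoryTheory

universe u

namespace Pool.Agent.TH177.QL

variable {T : KTheory.{u, 0}}

lemma isIso_of_bijective {X Y : AddCommGrpCat.{0}} (f : X ⟶ Y) (h : Function.Bijective f) :
    IsIso f := by
  have : IsIso ((forget AddCommGrpCat).map f) := (isIso_iff_bijective _).2 h
  exact isIso_of_reflects_iso f (forget AddCommGrpCat)

lemma bijective_of_isIso {X Y : AddCommGrpCat.{0}} (f : X ⟶ Y) [IsIso f] :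
    Function.Bijective f := by
  have : IsIso ((forget AddCommGrpCat).map f) := inferInstance
  exact (isIso_iff_bijective _).1 this

/-- In the range of the Quillen-Lichtenbaum dimension the Bott element acts bijectively. -/
lemma alg_isIso (B : T.Bott) (L : T.Cat) (d : ℕ) (hd : T.IsBound L d) (i k : ℤ) (h : k = i + 2)
    (hi : (d : ℤ) - 1 ≤ i) : IsIso (B.alg i k h L) := by
  have h1 : IsIso (T.comp 2 i L) := isIso_of_bijective _ ((hd 2 (by norm_num)).1 i hi)
  have h2 : IsIso (T.comp 2 k L) := isIso_of_bijective _ ((hd 2 (by norm_num)).1 k (by omega))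
  have h3 : IsIso (B.top i k h L) := B.top_isIso i k h L
  have h4 : IsIso (B.alg i k h L ≫ T.comp 2 k L) := by
    rw [B.comm i k h L]
    exact IsIso.comp_isIso
  exact IsIso.of_isIso_comp_right _ (T.comp 2 k L)

lemma alg_isIso_of_iso (B : T.Bott) (L A : T.Cat) (e : ∀ n : ℤ, T.K 2 n L ≅ T.K 2 n A)
    (i k : ℤ) (h : k = i + 2) (he : B.alg i k h L ≫ (e k).hom = (e i).hom ≫ B.alg i k h A)
    (hL : IsIso (B.alg i k h L)) : IsIso (B.alg i k h A) := by
  have h1 : IsIso ((e i).hom ≫ B.alg i k h A) := by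
    rw [← he]
    exact IsIso.comp_isIso
  exact IsIso.of_isIso_comp_left (e i).hom _

/-- If the Bott element acts bijectively in high degrees then `M` vanishes in high degrees. -/
lemma eq_zero_of_isIso {B : T.Bott} (C : Cofibre B) (G : GrpCat.{0}) (n : ℤ)
    (h1 : IsIso (B.alg (n - 2) n (by ring) (C.perf G)))
    (h2 : IsIso (B.alg (n - 3) (n - 1) (by ring) (C.perf G))) (y : (C.M n).obj G) : y = 0 := by
  have e1 := C.exact₁ (n - 2) n (by ring) G
  have e2 := C.exact₂ n (n - 3) (by ring) G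
  have e3 := C.exact₃ n (n - 3) (n - 1) (by ring) (by ring) G
  have h3 : C.bdry n (n - 3) (by ring) G y = 0 := by
    refine (bijective_of_isIso (B.alg (n - 3) (n - 1) _ (C.perf G))).1 ?_
    rw [map_zero]
    exact isExact_zero e3 y
  obtain ⟨x, rfl⟩ := isExact_lift e2 y h3
  obtain ⟨x', rfl⟩ := (bijective_of_isIso (B.alg (n - 2) n _ (C.perf G))).2 x
  exact isExact_zero e1 x'

lemma le_two_pow (d : ℕ) : d + 4 ≤ 2 ^ (d + 2) := by
  induction d with
  | zero => norm_num
  | succ d ih =>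
    have : 2 ^ (d + 1 + 2) = 2 * 2 ^ (d + 2) := by ring
    omega

/-- The Quillen-Lichtenbaum dimension of a category with the K-theory of Baumslag's group is
infinite. -/
theorem dimQL_eq_top {B : T.Bott} {C : Cofibre B} (W : Wang C) (E : AbelianValues C) (L : T.Cat)
    (e : ∀ n : ℤ, T.K 2 n L ≅ T.K 2 n (C.perf BG))
    (he : ∀ (i k : ℤ) (h : k = i + 2),
      B.alg i k h L ≫ (e k).hom = (e i).hom ≫ B.alg i k h (C.perf BG)) : T.dimQL L = ⊤ := by
  by_contra hne
  have hlt : T.dimQL L < ⊤ := lt_top_iff_ne_top.2 hne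
  simp only [KTheory.dimQL, iInf_lt_iff] at hlt
  obtain ⟨d, hd, -⟩ := hlt
  obtain ⟨y, hy⟩ := exists_ne_zero W E (d + 2) (by omega)
  refine hy (eq_zero_of_isIso C BG _ ?_ ?_ y)
  all_goals
    refine alg_isIso_of_iso B L (C.perf BG) e _ _ _ (he _ _ _) (alg_isIso B L d hd _ _ _ ?_)
    have h1 := le_two_pow d
    have h2 : ((2 ^ (d + 2) - 2 : ℕ) : ℤ) = ((2 ^ (d + 2) : ℕ) : ℤ) - 2 :=
      Nat.cast_sub (by omega)
    omega

/-- There is a smooth category of infinite Quillen-Lichtenbaum dimension. -/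
theorem exists_dimQL_eq_top {B : T.Bott} {C : Cofibre B} (W : Wang C) (E : AbelianValues C)
    (S : SmoothModel C) : ∃ L : T.Cat, T.Smooth L ∧ T.dimQL L = ⊤ := by
  obtain ⟨L, hL, e, he⟩ := S BG isFinitelyPresented_BG
  exact ⟨L, hL, dimQL_eq_top W E L e he⟩

/-- The negation of Q1. -/
theorem not_Q1 {B : T.Bott} {C : Cofibre B} (W : Wang C) (E : AbelianValues C)
    (S : SmoothModel C) : ¬ T.Q1 := by
  intro hQ
  obtain ⟨L, hL, htop⟩ := exists_dimQL_eq_top W E S
  exact (hQ L hL).ne htop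

end Pool.Agent.TH177.QL
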