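import Pool.Agent.TH177.QL.Ring

/-!
# An invariant functional on the exterior powers of `BR / 2`
-/

open Polynomial

namespace Pool.Agent.TH177.QL

lemma prod_points {F : Type} [Field F] [Fintype F] [DecidableEq F] [CharP F 2] :
    ∏ a ∈ ((Finset.univ : Finset F).erase 0).erase 1, a = 1 := by
  have key : ∀ a : F, a⁻¹ = a → a ≠ 0 → a = 1 := by
    intro a h h0
    have h1 : a * a = 1 := by
      nth_rewrite 1 [← h]
      exact inv_mul_cancel₀ h0
    have h2 : (a + 1) * (a + 1) = 0 := by
      have : (2 : F) = 0 := CharTwo.two_eq_zero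
      linear_combination h1 + (a + 1) * this
    have h3 : a + 1 = 0 := mul_self_eq_zero.1 h2
    rw [← CharTwo.add_eq_zero]
    exact h3
  refine Finset.prod_involution (fun a _ => a⁻¹) ?_ ?_ ?_ ?_
  · intro a ha
    have h0 : a ≠ 0 := by
      simp only [Finset.mem_erase] at ha
      exact ha.2.1
    exact mul_inv_cancel₀ h0
  · intro a ha h1 h2
    simp only [Finset.mem_erase] at ha
    exact h1 (key a h2 ha.2.1)
  · intro a ha
    simp only [Finset.mem_erase, Finset.mem_univ, and_true] at ha ⊢
    refine ⟨?_, inv_ne_zero ha.2⟩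
    intro h
    exact ha.1 (inv_eq_one.1 h)
  · intro a ha
    exact inv_inv a

lemma prod_points' {F : Type} [Field F] [Fintype F] [DecidableEq F] [CharP F 2] :
    ∏ a ∈ ((Finset.univ : Finset F).erase 0).erase 1, (1 + a) = 1 := by
  refine Eq.trans ?_ (prod_points (F := F))
  refine Finset.prod_bij' (fun a _ => 1 + a) (fun a _ => 1 + a) ?_ ?_ ?_ ?_ ?_
  · intro a ha
    simp only [Finset.mem_erase, Finset.mem_univ, and_true] at ha ⊢
    refine ⟨fun h => ha.2 (by simpa using h), fun h => ha.1 ?_⟩
    rw [CharTwo.add_eq_zero] at h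
    exact h.symm
  · intro a ha
    simp only [Finset.mem_erase, Finset.mem_univ, and_true] at ha ⊢
    refine ⟨fun h => ha.2 (by simpa using h), fun h => ha.1 ?_⟩
    rw [CharTwo.add_eq_zero] at h
    exact h.symm
  · intro a ha
    rw [← add_assoc, CharTwo.add_self_eq_zero, zero_add]
  · intro a ha
    rw [← add_assoc, CharTwo.add_self_eq_zero, zero_add]
  · intro a ha
    rfl

/-- On the exterior power of `BR / 2` of degree `2 ^ r - 2` there is a non-zero functional with values
in the field with `2 ^ r` elements which is invariant under `x` and `1 + x`. -/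
theorem exists_functional (r : ℕ) (hr : r ≠ 0) :
    ∃ (F : Type) (_ : Field F) (_ : Algebra (ZMod 2) F)
      (φ : ⋀[ZMod 2]^(2 ^ r - 2) (Mod2 BR) →ₗ[ZMod 2] F),
      (∀ w, φ (exteriorPower.map _ Tx w) = φ w) ∧ (∀ w, φ (exteriorPower.map _ Ty w) = φ w) ∧
        ∃ w, φ w ≠ 0 := by
  classical
  have hF : Finite (GaloisField 2 r) := inferInstance
  have instF : Fintype (GaloisField 2 r) := Fintype.ofFinite _
  have hchar : CharP (GaloisField 2 r) 2 := inferInstance
  obtain ⟨S, hS⟩ : ∃ S : Finset (GaloisField 2 r),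
    S = ((Finset.univ : Finset (GaloisField 2 r)).erase 0).erase 1 := ⟨_, rfl⟩
  have hcard : S.card = 2 ^ r - 2 := by
    rw [hS, Finset.card_erase_of_mem (by simp), Finset.card_erase_of_mem (by simp),
      Finset.card_univ, ← Nat.card_eq_fintype_card, GaloisField.card 2 r hr]
    omega
  have hmem : ∀ a ∈ S, a ≠ 1 ∧ a ≠ 0 := by
    intro a ha
    rw [hS] at ha
    simpa only [Finset.mem_erase, Finset.mem_univ, and_true] using ha
  obtain ⟨e⟩ : Nonempty (Fin (2 ^ r - 2) ≃ S) := ⟨(S.equivFinOfCardEq hcard).symm⟩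
  have h0 : ∀ j, ((e j : S) : GaloisField 2 r) ≠ 0 := by
    intro j
    exact (hmem _ (e j).2).2
  have h1 : ∀ j, 1 + ((e j : S) : GaloisField 2 r) ≠ 0 := by
    intro j h
    rw [CharTwo.add_eq_zero] at h
    exact (hmem _ (e j).2).1 h.symm
  have hprod : ∀ f : GaloisField 2 r → GaloisField 2 r,
      ∏ j, f ((e j : S) : GaloisField 2 r) = ∏ a ∈ S, f a := by
    intro f
    rw [← Finset.prod_coe_sort S f]
    exact Equiv.prod_comp e (fun s : S => f s)
  refine ⟨GaloisField 2 r, inferInstance, inferInstance,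
    detMap (fun j => evalV ((e j : S) : GaloisField 2 r) (h0 j) (h1 j)), ?_, ?_, ?_⟩
  · refine detMap_map _ _ (fun j => ((e j : S) : GaloisField 2 r)) ?_ ?_
    · intro j v
      exact evalV_Tx _ _ _ v
    · rw [hprod (fun a => a), hS]
      exact prod_points
  · refine detMap_map _ _ (fun j => 1 + ((e j : S) : GaloisField 2 r)) ?_ ?_
    · intro j v
      exact evalV_Ty _ _ _ v
    · rw [hprod (fun a => 1 + a), hS]
      exact prod_points'
  · refine ⟨exteriorPower.ιMulti _ _ (fun i => Mod2.mk (toBR X ^ (i : ℕ))), ?_⟩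
    rw [detMap_apply]
    have h2 : (Matrix.of fun i j : Fin (2 ^ r - 2) =>
        evalV ((e j : S) : GaloisField 2 r) (h0 j) (h1 j) (Mod2.mk (toBR X ^ (i : ℕ)))) =
        (Matrix.vandermonde fun j => ((e j : S) : GaloisField 2 r)).transpose := by
      ext i j
      rw [Matrix.of_apply, evalV_mk, map_pow, evalBR_X, Matrix.transpose_apply,
        Matrix.vandermonde_apply]
    rw [h2, Matrix.det_transpose, Matrix.det_vandermonde_ne_zero_iff]
    intro i j hij
    exact e.injective (Subtype.ext hij)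

end Pool.Agent.TH177.QL
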