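import Pool.Agent.TH177.QL.Ext
import Pool.Agent.TH177.QL.Defs

/-!
# The ring `ℤ[x, 1/x, 1/(1+x)]` modulo two
-/

open Polynomial

namespace Pool.Agent.TH177.QL

/-- The ring `ℤ[x, 1/x, 1/(1+x)]`. -/
abbrev BR : Type := Localization.Away (X * (1 + X) : ℤ[X])

/-- The map from the polynomial ring. -/
noncomputable abbrev toBR : ℤ[X] →+* BR := algebraMap ℤ[X] BR

lemma one_add_X_ne : (1 + X : ℤ[X]) ≠ 0 := by
  intro h
  have := congrArg (fun p => Polynomial.eval 0 p) h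
  simp at this

lemma u_ne : (X * (1 + X) : ℤ[X]) ≠ 0 := mul_ne_zero X_ne_zero one_add_X_ne

lemma toBR_injective : Function.Injective toBR :=
  IsLocalization.injective BR (powers_le_nonZeroDivisors_of_noZeroDivisors u_ne)

lemma isUnit_u : IsUnit (toBR (X * (1 + X))) :=
  IsLocalization.Away.algebraMap_isUnit (S := BR) (X * (1 + X) : ℤ[X])

lemma isUnit_x : IsUnit (toBR X) := by
  have h := isUnit_u
  rw [map_mul] at h
  exact isUnit_of_mul_isUnit_left h

lemma isUnit_y : IsUnit (toBR (1 + X)) := by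
  have h := isUnit_u
  rw [map_mul] at h
  exact isUnit_of_mul_isUnit_right h

/-- The unit `x`. -/
noncomputable def ux : BRˣ := isUnit_x.unit

/-- The unit `1 + x`. -/
noncomputable def uy : BRˣ := isUnit_y.unit

lemma ux_val : (ux : BR) = toBR X := rfl

lemma uy_val : (uy : BR) = toBR (1 + X) := rfl

instance : IsDomain BR :=
  IsLocalization.isDomain_localization (powers_le_nonZeroDivisors_of_noZeroDivisors u_ne)

instance : CharZero BR := charZero_of_injective_algebraMap toBR_injective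

instance : IsAddTorsionFree BR := inferInstance

lemma prime_two : Prime (2 : ℤ[X]) := by
  have h : (2 : ℤ[X]) = C 2 := rfl
  rw [h, Polynomial.prime_C_iff]
  exact Int.prime_two

lemma not_two_dvd_monic {p : ℤ[X]} (hp : p.Monic) : ¬ (2 : ℤ[X]) ∣ p := by
  rintro ⟨q, hq⟩
  have h := congrArg (fun r : ℤ[X] => r.coeff p.natDegree) hq
  have h2 : (2 : ℤ[X]) = C 2 := rfl
  simp only [h2, coeff_C_mul, Monic.coeff_natDegree hp] at h
  omega

lemma not_two_dvd_u_pow (n : ℕ) : ¬ (2 : ℤ[X]) ∣ (X * (1 + X)) ^ n := by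
  have h : (X * (1 + X) : ℤ[X]).Monic := by
    have h1 : (1 + X : ℤ[X]).Monic := by
      have := monic_X_add_C (1 : ℤ)
      rw [C_1] at this
      rwa [add_comm]
    exact monic_X.mul h1
  exact not_two_dvd_monic (h.pow n)

/-- `2` does not divide `x ^ m - 1`: if `(x ^ m - 1) f` is divisible by `2` then so is `f`. -/
lemma two_dvd_of (m : ℕ) (hm : m ≠ 0) (f g : BR) (h : (toBR X ^ m - 1) * f = 2 * g) :
    ∃ f' : BR, f = 2 * f' := by
  obtain ⟨a, p, hp⟩ := IsLocalization.Away.surj (X * (1 + X) : ℤ[X]) f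
  obtain ⟨b, q, hq⟩ := IsLocalization.Away.surj (X * (1 + X) : ℤ[X]) g
  have h1 : toBR ((X ^ m - 1) * p * (X * (1 + X)) ^ b) = toBR (2 * q * (X * (1 + X)) ^ a) := by
    have e1 : toBR ((X ^ m - 1) * p * (X * (1 + X)) ^ b) =
        (toBR X ^ m - 1) * toBR p * toBR (X * (1 + X)) ^ b := by
      simp only [map_mul, map_sub, map_pow, map_one]
    have e2 : toBR (2 * q * (X * (1 + X)) ^ a) = 2 * toBR q * toBR (X * (1 + X)) ^ a := by
      simp only [map_mul, map_pow, map_ofNat]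
    rw [e1, e2, ← hp, ← hq]
    linear_combination (toBR (X * (1 + X)) ^ a * toBR (X * (1 + X)) ^ b) * h
  have h2 := toBR_injective h1
  have h3 : (2 : ℤ[X]) ∣ (X ^ m - 1) * p * (X * (1 + X)) ^ b := by
    rw [h2, mul_assoc]
    exact dvd_mul_right _ _
  have h4 : (2 : ℤ[X]) ∣ p := by
    rcases prime_two.dvd_or_dvd h3 with h3 | h3
    · rcases prime_two.dvd_or_dvd h3 with h3 | h3
      · exfalso
        have := monic_X_pow_sub_C (1 : ℤ) hm
        rw [C_1] at this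
        exact not_two_dvd_monic this h3
      · exact h3
    · exact absurd h3 (not_two_dvd_u_pow b)
  obtain ⟨p', rfl⟩ := h4
  obtain ⟨v, hv⟩ := isUnit_u.pow a
  refine ⟨toBR p' * (v⁻¹ : BRˣ), ?_⟩
  have h5 : f * (v : BR) = 2 * toBR p' := by
    rw [hv, hp]
    simp only [map_mul, map_ofNat]
  calc f = (f * v) * (v⁻¹ : BRˣ) := by rw [mul_assoc, Units.mul_inv, mul_one]
    _ = _ := by rw [h5, mul_assoc]

lemma Mod2.map_mk {A B : Type} [AddCommGroup A] [AddCommGroup B] (f : A →+ B) (a : A) :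
    Mod2.map f (Mod2.mk a) = Mod2.mk (f a) := rfl

lemma Mod2.lift_mk {A W : Type} [AddCommGroup A] [AddCommGroup W] [Module (ZMod 2) W]
    (f : A →+ W) (a : A) : Mod2.lift f (Mod2.mk a) = f a := rfl

/-- Multiplication by `x` on `BR / 2`. -/
noncomputable def Tx : Mod2 BR →ₗ[ZMod 2] Mod2 BR := Mod2.map (AddMonoidHom.mulLeft (ux : BR))

/-- Multiplication by `1 + x` on `BR / 2`. -/
noncomputable def Ty : Mod2 BR →ₗ[ZMod 2] Mod2 BR := Mod2.map (AddMonoidHom.mulLeft (uy : BR))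

lemma Tx_mk (f : BR) : Tx (Mod2.mk f) = Mod2.mk (ux * f) := rfl

lemma Ty_mk (f : BR) : Ty (Mod2.mk f) = Mod2.mk (uy * f) := rfl

lemma Tx_injective : Function.Injective Tx := by
  rw [injective_iff_map_eq_zero]
  intro v hv
  obtain ⟨f, rfl⟩ := Mod2.mk_surjective v
  rw [Tx_mk, Mod2.mk_eq_zero] at hv
  obtain ⟨g, hg⟩ := hv
  rw [Mod2.mk_eq_zero]
  refine ⟨(ux⁻¹ : BRˣ) * g, ?_⟩
  rw [← mul_smul_comm, hg, ← mul_assoc, Units.inv_mul, one_mul]

lemma Tx_pow_mk (m : ℕ) (f : BR) : (Tx ^ m) (Mod2.mk f) = Mod2.mk ((ux : BR) ^ m * f) := by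
  induction m with
  | zero => simp
  | succ m ih =>
    rw [pow_succ', Module.End.mul_apply, ih, Tx_mk, ← mul_assoc, ← pow_succ']

lemma Tx_periodic (m : ℕ) (v : Mod2 BR) (hm : m ≠ 0) (h : (Tx ^ m) v = v) : v = 0 := by
  obtain ⟨f, rfl⟩ := Mod2.mk_surjective v
  rw [Tx_pow_mk] at h
  have h1 : Mod2.mk (((ux : BR) ^ m - 1) * f) = 0 := by
    rw [sub_mul, one_mul, map_sub, h, sub_self]
  rw [Mod2.mk_eq_zero] at h1
  obtain ⟨g, hg⟩ := h1
  obtain ⟨f', hf'⟩ := two_dvd_of m hm f g (by rw [← ux_val, ← hg, two_smul, two_mul])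
  rw [Mod2.mk_eq_zero]
  exact ⟨f', by rw [hf', two_smul, two_mul]⟩

section Evaluation

variable {F : Type} [Field F]

/-- Evaluation at a point `a` different from `0` and `1`. -/
noncomputable def evalBR (a : F) (ha : a ≠ 0) (ha' : 1 + a ≠ 0) : BR →+* F :=
  IsLocalization.Away.lift (S := BR) (X * (1 + X) : ℤ[X]) (g := eval₂RingHom (Int.castRingHom F) a)
    (by
      simp only [coe_eval₂RingHom, eval₂_mul, eval₂_X, eval₂_add, eval₂_one]
      exact (mul_ne_zero ha ha').isUnit)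

lemma evalBR_X (a : F) (ha : a ≠ 0) (ha' : 1 + a ≠ 0) : evalBR a ha ha' (toBR X) = a := by
  rw [evalBR, IsLocalization.Away.lift_eq]
  simp

lemma evalBR_X' (a : F) (ha : a ≠ 0) (ha' : 1 + a ≠ 0) :
    evalBR a ha ha' (toBR (1 + X)) = 1 + a := by
  rw [evalBR, IsLocalization.Away.lift_eq]
  simp

/-- Evaluation at a point `a` different from `0` and `1`, modulo `2`. -/
noncomputable def evalV [Algebra (ZMod 2) F] (a : F) (ha : a ≠ 0) (ha' : 1 + a ≠ 0) : Mod2 BR →ₗ[ZMod 2] F :=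
  Mod2.lift (evalBR a ha ha').toAddMonoidHom

lemma evalV_mk [Algebra (ZMod 2) F] (a : F) (ha : a ≠ 0) (ha' : 1 + a ≠ 0) (f : BR) :
    evalV a ha ha' (Mod2.mk f) = evalBR a ha ha' f := rfl

lemma evalV_Tx [Algebra (ZMod 2) F] (a : F) (ha : a ≠ 0) (ha' : 1 + a ≠ 0) (v : Mod2 BR) :
    evalV a ha ha' (Tx v) = a * evalV a ha ha' v := by
  obtain ⟨f, rfl⟩ := Mod2.mk_surjective v
  rw [Tx_mk, evalV_mk, evalV_mk, map_mul, ux_val, evalBR_X]

lemma evalV_Ty [Algebra (ZMod 2) F] (a : F) (ha : a ≠ 0) (ha' : 1 + a ≠ 0) (v : Mod2 BR) :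
    evalV a ha ha' (Ty v) = (1 + a) * evalV a ha ha' v := by
  obtain ⟨f, rfl⟩ := Mod2.mk_surjective v
  rw [Ty_mk, evalV_mk, evalV_mk, map_mul, uy_val, evalBR_X']

end Evaluation

end Pool.Agent.TH177.QL
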